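import Pool.Agent.H.MP_30c5a0_lc.C

/-! Distance labeling of the cycles `C_3, …, C_n` with `o(n^{3/2})` labels. -/

namespace Pool.Agent.Results.MP_30c5a0_lc.LittleO

open Finset Pool.Agent.H.MP_30c5a0_lc.B Pool.Agent.H.MP_30c5a0_lc.C

/-- Graph distance on the cycle `C_i` with vertices `0, …, i - 1` in cyclic order: the length of
the shorter of the two paths. -/
def cdist (i : ℕ) (u v : Fin i) : ℤ := min |((u : ℕ) : ℤ) - (v : ℕ)| (i - |((u : ℕ) : ℤ) - (v : ℕ)|)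

/-- The least number of distinct labels used by a distance labeling of `C_3, …, C_n`. -/
noncomputable def lam (n : ℕ) : ℕ :=
  sInf {c | ∃ (L : Type) (φ : (i : ℕ) → Fin i → L) (d' : L → L → ℤ),
    (∀ i, 3 ≤ i → i ≤ n → ∀ u v : Fin i, d' (φ i u) (φ i v) = cdist i u v) ∧
    c = Set.ncard {a | ∃ i, 3 ≤ i ∧ i ≤ n ∧ ∃ u : Fin i, φ i u = a}}

theorem lam_le {n c : ℕ} (h : Ok n c) : lam n ≤ c := by
  classical
  obtain ⟨L, φ, T, h1, h2, h3⟩ := h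
  refine le_trans (Nat.sInf_le ⟨L, fun i u => φ i u, fun a b =>
    if h : ∃ x : ℕ × ℕ × ℕ, x.1 ≤ n ∧ x.2.1 < x.1 ∧ x.2.2 < x.1 ∧ φ x.1 x.2.1 = a ∧ φ x.1 x.2.2 = b
    then cd h.choose.1 h.choose.2.1 h.choose.2.2 else 0, fun i _ hi u v => ?_, rfl⟩) ?_
  · have e : ∃ x : ℕ × ℕ × ℕ, x.1 ≤ n ∧ x.2.1 < x.1 ∧ x.2.2 < x.1 ∧ φ x.1 x.2.1 = φ i u ∧
        φ x.1 x.2.2 = φ i v := ⟨(i, u, v), hi, u.2, v.2, rfl, rfl⟩
    simp only [dif_pos e]
    obtain ⟨a1, a2, a3, a4, a5⟩ := e.choose_spec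
    exact h3 _ a1 i hi _ a2 _ a3 u u.2 v v.2 a4 a5
  · refine le_trans (Set.ncard_le_ncard (t := (T : Set L)) ?_ T.finite_toSet) (by simpa using h1)
    rintro a ⟨i, -, hi, u, rfl⟩
    exact h2 i hi u u.2

theorem bern (a b : ℝ) (t : ℕ) (ha : 0 < a) (hb : 0 ≤ b) (ht : 1 ≤ t) (h : 2 * t * b ≤ a) :
    a ^ t ≤ 2 * (a - b) ^ t := by
  have ht' : (1 : ℝ) ≤ t := by exact_mod_cast ht
  have h1 := one_add_mul_le_pow (a := -(b / a))
    (by rw [neg_le_neg_iff, div_le_iff₀ ha]; nlinarith) t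
  have h2 : (a - b) ^ t = a ^ t * (1 + -(b / a)) ^ t := by
    rw [← mul_pow]; congr 1; field_simp; ring
  have h3 : (t : ℝ) * (b / a) ≤ 1 / 2 := by
    rw [← mul_div_assoc, div_le_iff₀ ha]; linarith
  have h4 : 0 < a ^ t := by positivity
  rw [h2]; nlinarith

theorem main (ε : ℝ) (hε : 0 < ε) : ∃ n0 : ℕ, ∀ n ≥ n0, (lam n : ℝ) ≤ ε * (n * √n) := by
  obtain ⟨m, h3, hm⟩ : ∃ m : ℕ, 3 ∣ m ∧ 3456 / ε ^ 2 ≤ m := ⟨3 * ⌈3456 / ε ^ 2⌉₊, dvd_mul_right _ _,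
    (Nat.le_ceil _).trans (by exact_mod_cast Nat.le_mul_of_pos_left _ (by norm_num))⟩
  obtain ⟨N, hN⟩ : ∃ N, N = 2 * (m + 3) := ⟨_, rfl⟩
  obtain ⟨e, he⟩ : ∃ e, e = (m + 3) * (m + 2) := ⟨_, rfl⟩
  have N6 : 6 ≤ N := by omega
  have e6 : 6 ≤ e := by rw [he]; nlinarith
  have eN : e ≤ N ^ 2 := by rw [he, hN]; nlinarith
  refine ⟨(25 * N ^ 4) ^ (2 * e) + 16 * N ^ 5, fun n hn => ?_⟩
  have ex : ∃ z, 12 * N * n < (2 * N * z + 1) ^ (2 * e) :=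
    ⟨12 * N * n, lt_of_lt_of_le (Nat.lt_succ_of_le (Nat.le_mul_of_pos_left _ (by omega)))
      (Nat.le_self_pow (by omega) _)⟩
  obtain ⟨z, hz1, hz2⟩ : ∃ z, 12 * N * n < (2 * N * z + 1) ^ (2 * e) ∧
      ∀ y < z, (2 * N * y + 1) ^ (2 * e) ≤ 12 * N * n :=
    ⟨Nat.find ex, Nat.find_spec ex, fun y hy => not_lt.1 (Nat.find_min ex hy)⟩
  obtain ⟨Λ, hΛ⟩ : ∃ Λ, Λ = 2 * N * z + 1 := ⟨_, rfl⟩
  rw [← hΛ] at hz1
  have L1 : 25 * N ^ 4 < Λ := lt_of_pow_lt_pow_left₀ (2 * e) (Nat.zero_le _)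
    (lt_of_le_of_lt (((Nat.le_add_right _ _).trans hn).trans (Nat.le_mul_of_pos_left n (by omega))) hz1)
  have N4 : 1 ≤ N ^ 4 := Nat.one_le_pow _ _ (by omega)
  have z1 : 1 ≤ z := Nat.pos_of_ne_zero fun h => by rw [h] at hΛ; omega
  obtain ⟨Q, hQ⟩ : ∃ Q, Q = (Λ ^ (m + 3)) ^ (m + 2) := ⟨_, rfl⟩
  have hQ2 : Λ ^ (2 * e) = Q ^ 2 := by rw [hQ, he, ← pow_mul, ← pow_mul]; congr 1; ring
  rw [hQ2] at hz1
  have Q1 : 1 ≤ Q := by rw [hQ]; exact Nat.one_le_pow _ _ (Nat.pow_pos (by omega))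
  obtain ⟨p, pp, p1, p2⟩ := Nat.exists_prime_lt_and_le_two_mul (N ^ 2 * Q + Q) (by omega)
  haveI : Fact p.Prime := ⟨pp⟩
  obtain ⟨Ω, hΩ⟩ : ∃ Ω, Ω = n / (N * Λ) + 1 := ⟨_, rfl⟩
  obtain ⟨R, hR⟩ : ∃ R, R = (m + 3) * (N * Ω) + N * N * (Λ ^ (m + 3)) ^ (2 * m + 3) := ⟨_, rfl⟩
  have N6' : (6 : ℝ) ≤ N := by exact_mod_cast N6
  have L1' : 25 * (N : ℝ) ^ 4 < Λ := by exact_mod_cast L1
  have L0 : (0 : ℝ) < Λ := lt_of_le_of_lt (by positivity) L1'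
  have z1' : (1 : ℝ) ≤ z := by exact_mod_cast z1
  have hΛ' : (Λ : ℝ) = 2 * N * z + 1 := by exact_mod_cast hΛ
  have hN' : (N : ℝ) = 2 * (m + 3) := by exact_mod_cast hN
  have hz1' : 12 * (N : ℝ) * n < Q ^ 2 := by exact_mod_cast hz1
  have O1 : (N : ℝ) * Ω ≤ n / Λ + N := by
    have : ((n / (N * Λ) : ℕ) : ℝ) ≤ n / (N * Λ) := by exact_mod_cast Nat.cast_div_le
    have e1 : (N : ℝ) * (n / (N * Λ)) = n / Λ := by field_simp
    rw [hΩ]; push_cast; nlinarith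
  have zL : z ≤ Λ := by nlinarith
  have key := lam_le (fin (m := m) (Λ := Λ) z n Ω p (Nat.sqrt R + 1) h3
    ⟨N * z, by rw [hΛ]; ring⟩ zL (fun E hE => by
      rw [← hN]
      have a1 : (((Λ : ℝ) - z) * Λ ^ (m + 2)) ^ (m + 2) ≤ E * Λ ^ 2 := by
        rw [← Nat.cast_sub zL]; exact_mod_cast hE
      have a2 := bern Λ z (2 * m + 5) L0 (by positivity) (by omega) (by
        rw [hΛ', hN']; push_cast; nlinarith)
      have a3 : (0 : ℝ) ≤ Λ - z := sub_nonneg.2 (by exact_mod_cast zL)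
      have a4 := pow_le_pow_left₀ (by positivity) a1 2
      have a5 : (Q : ℝ) ^ 2 * Λ = Λ ^ (2 * m + 5) * ((Λ ^ (m + 2)) ^ (m + 2)) ^ 2 := by
        rw [hQ]; push_cast; ring
      have a6 : (Q : ℝ) ^ 2 * Λ ≤ 2 * ((Λ - z) * (E * Λ ^ 2) ^ 2) := by
        rw [a5]
        refine (mul_le_mul_of_nonneg_right a2 (by positivity)).trans ?_
        rw [mul_assoc]
        refine mul_le_mul_of_nonneg_left (le_trans (le_of_eq ?_)
          (mul_le_mul_of_nonneg_left a4 a3)) (by norm_num)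
        rw [mul_pow]; ring
      have a7 : 12 * (N : ℝ) ^ 2 * Λ ≤ Q ^ 2 := by
        have b1 : (Λ : ℝ) ^ 2 ≤ Q ^ 2 := by
          have : Λ ^ 2 ≤ Q ^ 2 := hQ2 ▸ Nat.pow_le_pow_right (by omega) (by omega)
          exact_mod_cast this
        have b2 : 12 * (N : ℝ) ^ 2 ≤ Λ := by nlinarith [sq_nonneg ((N : ℝ) ^ 2 - 1), sq_nonneg (N : ℝ)]
        nlinarith
      have a8 : (N : ℝ) * Ω * (6 * N * Λ) ≤ Q ^ 2 := by
        have b1 := mul_le_mul_of_nonneg_right O1 (show (0 : ℝ) ≤ 6 * N * Λ by positivity)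
        have b2 : ((n : ℝ) / Λ + N) * (6 * N * Λ) = 6 * N * n + 6 * N ^ 2 * Λ := by field_simp
        linarith
      have a9 : (Λ : ℝ) ≤ 3 * N * z := by rw [hΛ']; nlinarith
      have a10 : (N : ℝ) * Ω ≤ z * Λ * E * ((Λ - z) * E) := by
        refine le_of_mul_le_mul_right ?_ (show (0 : ℝ) < 6 * N * Λ * Λ * Λ * Λ by positivity)
        calc (N : ℝ) * Ω * (6 * N * Λ * Λ * Λ * Λ) = N * Ω * (6 * N * Λ) * Λ * Λ * Λ := by ring
          _ ≤ Q ^ 2 * Λ * Λ * Λ := by gcongr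
          _ ≤ 2 * ((Λ - z) * (E * Λ ^ 2) ^ 2) * Λ * (3 * N * z) := by gcongr
          _ = z * Λ * E * ((Λ - z) * E) * (6 * N * Λ * Λ * Λ * Λ) := by ring
      rw [← Nat.cast_sub zL] at a10
      exact_mod_cast a10)
    (by
      rw [← hN, hΩ, mul_right_comm]
      exact Nat.lt_mul_div_succ n (Nat.mul_pos (by omega) (by omega)))
    (by omega) (by rw [← hN, ← hR]; exact (Nat.lt_succ_sqrt R).le)
    (by rw [← hN]; nlinarith) (by
      rw [← hN, ← hQ]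
      have a1 : p * (N ^ 2 * Q + Q + 1) ≤ p * p := Nat.mul_le_mul_left p p1
      have a2 : (Q + 1) * (Q + 1) ≤ p * (Q + 1) := Nat.mul_le_mul_right _ (by omega)
      nlinarith))
  rw [← hN, ← hQ] at key
  have n1 : 16 * (N : ℝ) ^ 5 ≤ n := by exact_mod_cast le_trans (Nat.le_add_left _ _) hn
  have NN : (N : ℝ) ^ 3 ≤ N ^ 5 := pow_le_pow_right₀ (by linarith) (by norm_num)
  have NN1 : (N : ℝ) ≤ N ^ 3 := le_self_pow₀ (by linarith) (by norm_num)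
  have n0 : (0 : ℝ) < n := by nlinarith
  have U1 : (Q : ℝ) ^ 2 ≤ 24 * N * n := by
    have a1 : ((2 * N * (z - 1 : ℕ) + 1 : ℕ) : ℝ) ^ (2 * e) ≤ 12 * N * n := by
      exact_mod_cast hz2 (z - 1) (by omega)
    have a2 : ((2 * N * (z - 1 : ℕ) + 1 : ℕ) : ℝ) = Λ - 2 * N := by
      rw [hΛ']; push_cast [Nat.cast_sub z1]; ring
    have eN' : (e : ℝ) ≤ N ^ 2 := by exact_mod_cast eN
    have a3 := bern Λ (2 * N) (2 * e) L0 (by positivity) (by omega) (by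
      push_cast
      have : (N : ℝ) ^ 3 ≤ N ^ 4 := pow_le_pow_right₀ (by linarith) (by norm_num)
      nlinarith)
    have a4 : (Λ : ℝ) ^ (2 * e) = Q ^ 2 := by exact_mod_cast hQ2
    rw [a2] at a1
    linarith
  have E1 : 3456 ≤ ε ^ 2 * N := by
    rw [div_le_iff₀ (by positivity)] at hm
    have : (0 : ℝ) ≤ m := by positivity
    nlinarith [sq_nonneg ε]
  set s := √(n : ℝ) with hs
  have s0 : 0 ≤ s := Real.sqrt_nonneg _
  have s2 : s ^ 2 = n := Real.sq_sqrt n0.le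
  have U2 : (Q : ℝ) ≤ ε * N * s / 12 := by
    refine (pow_le_pow_iff_left₀ (by positivity) (by positivity) two_ne_zero).1 ?_
    rw [div_pow, mul_pow, mul_pow, s2]
    nlinarith [mul_le_mul_of_nonneg_right E1 (show (0 : ℝ) ≤ N * n by positivity)]
  have nL : (n : ℝ) / Λ ≤ n / (25 * N ^ 4) := by gcongr
  have T1 : ((3 * Q * (n / N + 1) : ℕ) : ℝ) ≤ ε * (n * s) / 2 := by
    have a1 : ((n / N : ℕ) : ℝ) ≤ n / N := Nat.cast_div_le
    have a2 : (1 : ℝ) ≤ n / N := by rw [le_div_iff₀ (by linarith)]; nlinarith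
    push_cast
    calc 3 * (Q : ℝ) * ((n / N : ℕ) + 1) ≤ 3 * (ε * N * s / 12) * (n / N + n / N) := by gcongr
      _ = _ := by field_simp; ring
  have T2 : ((N * (p * (3 * (m + 3) * Ω)) : ℕ) : ℝ) ≤ ε * (n * s) / 4 := by
    have a1 : (p : ℝ) ≤ 4 * N ^ 2 * Q := by
      have : p ≤ 4 * N ^ 2 * Q := by nlinarith [Nat.mul_le_mul_right Q (Nat.one_le_pow 2 N (by omega))]
      exact_mod_cast this
    have a2 : (N : ℝ) ≤ n / (16 * N ^ 4) := by rw [le_div_iff₀ (by positivity)]; nlinarith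
    have a3 : (n : ℝ) / (25 * N ^ 4) ≤ n / (16 * N ^ 4) := by gcongr; norm_num
    have a4 : 3 * ((m : ℝ) + 3) * Ω ≤ 2 * (n / (16 * N ^ 4) + n / (16 * N ^ 4)) := by
      have : (0 : ℝ) ≤ N * Ω := by positivity
      have e1 : 3 * ((m : ℝ) + 3) * Ω = 3 / 2 * (N * Ω) := by rw [hN']; ring
      linarith
    push_cast
    calc (N : ℝ) * (p * (3 * (m + 3) * Ω)) ≤ N * (4 * N ^ 2 * (ε * N * s / 12) *
          (2 * (n / (16 * N ^ 4) + n / (16 * N ^ 4)))) := by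
          gcongr; exact a1.trans (by gcongr)
      _ = ε * (n * s) / 12 := by field_simp; ring
      _ ≤ _ := by gcongr; norm_num
  have T3 : ((2 * ((Nat.sqrt R + 1) * (n + 1)) : ℕ) : ℝ) ≤ ε * (n * s) / 4 := by
    have a1 : ((Λ : ℝ) ^ (m + 3)) ^ (2 * m + 3) ≤ 24 * N * (n / Λ) := by
      rw [← mul_div_assoc, le_div_iff₀ L0]
      refine le_trans ?_ U1
      have b1 : (Λ : ℝ) ≤ Λ ^ (m + 3) := le_self_pow₀ (by exact_mod_cast (show 1 ≤ Λ by omega)) (by omega)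
      refine (mul_le_mul_of_nonneg_left b1 (by positivity)).trans (le_of_eq ?_)
      rw [hQ]; push_cast; ring
    have a2 : (R : ℝ) ≤ 2 * (n / N) := by
      have b1 : ((m : ℝ) + 3) ≤ N := by rw [hN']; nlinarith [show (0 : ℝ) ≤ m by positivity]
      have b2 : (N : ℝ) ^ 2 ≤ n / N := by rw [le_div_iff₀ (by linarith)]; nlinarith
      have b3 : 25 * (N : ℝ) ^ 3 * (n / (25 * N ^ 4)) = n / N := by field_simp
      have b4 : (0 : ℝ) ≤ n / Λ := by positivity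
      rw [hR]; push_cast
      calc ((m : ℝ) + 3) * (N * Ω) + N * N * (Λ ^ (m + 3)) ^ (2 * m + 3)
          ≤ N * (n / Λ + N) + N * N * (24 * N * (n / Λ)) := by gcongr
        _ = N * (n / Λ) + 24 * N ^ 3 * (n / Λ) + N ^ 2 := by ring
        _ ≤ N ^ 3 * (n / Λ) + 24 * N ^ 3 * (n / Λ) + N ^ 2 := by gcongr
        _ = 25 * N ^ 3 * (n / Λ) + N ^ 2 := by ring
        _ ≤ 25 * N ^ 3 * (n / (25 * N ^ 4)) + n / N := by gcongr
        _ = _ := by rw [b3]; ring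
    have a3 : (n : ℝ) / N ≤ ε ^ 2 * n / 2048 := by
      rw [div_le_div_iff₀ (by linarith) (by norm_num)]
      nlinarith [mul_le_mul_of_nonneg_right E1 n0.le]
    have a4 : ((Nat.sqrt R : ℕ) : ℝ) ≤ ε * s / 32 := by
      refine (pow_le_pow_iff_left₀ (by positivity) (by positivity) two_ne_zero).1 ?_
      have : ((Nat.sqrt R : ℕ) : ℝ) ^ 2 ≤ R := by exact_mod_cast Nat.sqrt_le' R
      rw [div_pow, mul_pow, s2]; linarith
    have a5 : (1 : ℝ) ≤ ε * s / 32 := by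
      refine (pow_le_pow_iff_left₀ (by positivity) (by positivity) two_ne_zero).1 ?_
      rw [div_pow, mul_pow, s2]
      nlinarith [mul_le_mul_of_nonneg_left (show (N : ℝ) ≤ n by nlinarith) (sq_nonneg ε)]
    push_cast
    calc 2 * ((((Nat.sqrt R : ℕ) : ℝ) + 1) * (n + 1)) ≤ 2 * ((ε * s / 32 + ε * s / 32) * (n + n)) := by
          gcongr; nlinarith
      _ = _ := by ring
  have key' : (lam n : ℝ) ≤ ((3 * Q * (n / N + 1) : ℕ) : ℝ) + ((N * (p * (3 * (m + 3) * Ω)) : ℕ) : ℝ) +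
      ((2 * ((Nat.sqrt R + 1) * (n + 1)) : ℕ) : ℝ) := by exact_mod_cast key
  linarith

theorem result :
    (∀ ε : ℝ, 0 < ε → ∃ n0 : ℕ, ∀ n ≥ n0, (lam n : ℝ) ≤ ε * (n * √n)) ∧
    ¬ ∃ (C : ℝ) (n0 : ℕ), ∀ n ≥ n0, |(lam n : ℝ) - n * √n / √6| ≤ C * n := by
  refine ⟨main, ?_⟩
  rintro ⟨C, n0, h⟩
  obtain ⟨n1, h1⟩ := main (1 / 6) (by norm_num)
  obtain ⟨t, ht⟩ := exists_nat_gt (6 * C)
  set n := (n0 + n1 + t + 1) ^ 2 with hn
  have a0 : n0 + n1 + t + 1 ≤ n := Nat.le_self_pow (by norm_num) _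
  have a1 := (abs_le.1 (h n (by omega))).1
  have a2 := h1 n (by omega)
  have a3 : √(n : ℝ) = (n0 + n1 + t + 1 : ℕ) := by
    rw [hn, Nat.cast_pow, Real.sqrt_sq (by positivity)]
  have a4 : 6 * C < √(n : ℝ) := by
    rw [a3]; push_cast; linarith [show (0 : ℝ) ≤ n0 + n1 by positivity]
  have a5 : (0 : ℝ) < n := by exact_mod_cast (show 0 < n by omega)
  have a6 : (n : ℝ) * √n / 3 ≤ n * √n / √6 := by
    gcongr
    exact Real.sqrt_le_iff.2 ⟨by norm_num, by norm_num⟩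
  nlinarith [mul_lt_mul_of_pos_left a4 a5]

end Pool.Agent.Results.MP_30c5a0_lc.LittleO
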